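import Pool.Agent.H74.G.R_seed8.Y504.CO.Stm2
import Pool.Agent.H74.G.R_seed8.TH80.OMS.ND
import Pool.Agent.H74.G.R_seed8.W699.SC.GC

/-!
# Job CO-TR (helper863): homoclinic orbits become transverse after a small perturbation
-/

set_option autoImplicit false
set_option linter.unusedSectionVars false

open scoped Manifold ContDiff Topology
open Filter Set Metric

universe u

namespace Pool.Agent.Y863.CO

open Pool.Agent.H718R2.G Pool.Agent.TH80.OMS Pool.Agent.Y504.CO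

section mfd

variable {n : ℕ} {N : Type u} [TopologicalSpace N] [ChartedSpace (V n) N] [IsManifold (𝓡 n) ∞ N]
  [T2Space N]

theorem cda {r : ℕ∞} (hr : 1 ≤ r) (g : DiffM n N r) (k : ℕ) {ψ : OpenPartialHomeomorph N (V n)}
    (hψ : ψ ∈ IsManifold.maximalAtlas (𝓡 n) ∞ N) {x : N} (hx : x ∈ ψ.source)
    (hx' : g^[k] x ∈ ψ.source) :
    ContDiffAt ℝ 1 (fun v => ψ (g^[k] (ψ.symm v))) (ψ x) := by
  have h := joint_chart hr (const_fam 0 g) k hψ hx hx'
  have h2 : ContDiffAt ℝ 1 (fun v : V n => ((0 : V 0), v)) (ψ x) :=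
    contDiffAt_const.prodMk contDiffAt_id
  exact ContDiffAt.comp (g := fun q : V 0 × V n => ψ (g^[k] (ψ.symm q.2)))
    (f := fun v : V n => ((0 : V 0), v)) (ψ x) h h2

theorem inj {r : ℕ∞} (hr : 1 ≤ r) (g : DiffM n N r) (k : ℕ) {ψ : OpenPartialHomeomorph N (V n)}
    (hψ : ψ ∈ IsManifold.maximalAtlas (𝓡 n) ∞ N) {x : N} (hx : x ∈ ψ.source)
    (hx' : g^[k] x ∈ ψ.source) :
    Function.Injective (fderiv ℝ (fun v => ψ (g^[k] (ψ.symm v))) (ψ x)) := by
  have hinv : ∀ y : N, g.symm^[k] (g^[k] y) = y :=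
    Function.LeftInverse.iterate (fun y => g.symm_apply_apply y) k
  have h1 : ContDiffAt ℝ 1 (fun v => ψ (g^[k] (ψ.symm v))) (ψ x) := cda hr g k hψ hx hx'
  have h2 : ContDiffAt ℝ 1 (fun v => ψ (g.symm^[k] (ψ.symm v))) (ψ (g^[k] x)) :=
    cda hr g.symm k hψ hx' (by rw [hinv]; exact hx)
  have h3 : (fun v => ψ (g.symm^[k] (ψ.symm v))) ∘ (fun v => ψ (g^[k] (ψ.symm v))) =ᶠ[𝓝 (ψ x)]
      id := by
    have c1 : ContinuousAt (fun v => g^[k] (ψ.symm v)) (ψ x) :=
      ContinuousAt.comp (g := g^[k]) (f := ψ.symm) (g.continuous.iterate k).continuousAt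
        (ψ.continuousAt_symm (ψ.map_source hx))
    have c2 : ∀ᶠ v in 𝓝 (ψ x), g^[k] (ψ.symm v) ∈ ψ.source := by
      apply c1.eventually
      apply ψ.open_source.mem_nhds
      show g^[k] (ψ.symm (ψ x)) ∈ ψ.source
      rw [ψ.left_inv hx]
      exact hx'
    filter_upwards [c2, ψ.open_target.mem_nhds (ψ.map_source hx)] with v hv hv'
    show ψ (g.symm^[k] (ψ.symm (ψ (g^[k] (ψ.symm v))))) = v
    rw [ψ.left_inv hv, hinv, ψ.right_inv hv']
  have h4 : HasFDerivAt ((fun v => ψ (g.symm^[k] (ψ.symm v))) ∘ (fun v => ψ (g^[k] (ψ.symm v))))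
      ((fderiv ℝ (fun v => ψ (g.symm^[k] (ψ.symm v))) (ψ (g^[k] x))).comp
        (fderiv ℝ (fun v => ψ (g^[k] (ψ.symm v))) (ψ x))) (ψ x) := by
    apply HasFDerivAt.comp
    · show HasFDerivAt _ _ (ψ (g^[k] (ψ.symm (ψ x))))
      rw [ψ.left_inv hx]
      exact (h2.differentiableAt (by norm_num)).hasFDerivAt
    · exact (h1.differentiableAt (by norm_num)).hasFDerivAt
  have h5 : HasFDerivAt ((fun v => ψ (g.symm^[k] (ψ.symm v))) ∘ (fun v => ψ (g^[k] (ψ.symm v))))
      (ContinuousLinearMap.id ℝ (V n)) (ψ x) := (hasFDerivAt_id _).congr_of_eventuallyEq h3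
  have h6 := h4.unique h5
  intro a b hab
  have e2 : ∀ w, (fderiv ℝ (fun v => ψ (g.symm^[k] (ψ.symm v))) (ψ (g^[k] x)))
      ((fderiv ℝ (fun v => ψ (g^[k] (ψ.symm v))) (ψ x)) w) = w := by
    intro w
    have := congrArg (fun L : V n →L[ℝ] V n => L w) h6
    exact this
  rw [← e2 a, hab, e2 b]

end mfd

section top

variable {X : Type u}

theorem step_iter {f : X → X} {x : ℤ → X} (hx : ∀ i, f (x i) = x (i + 1)) (k : ℕ) (i : ℤ) :
    f^[k] (x i) = x (i + k) := by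
  induction k generalizing i with
  | zero => simp
  | succ k ih =>
    rw [Function.iterate_succ_apply, hx, ih]
    congr 1
    push_cast
    ring

theorem orb_back {f : X → X} (hf : Function.Injective f) {p : X} {m : ℕ} (hm : 1 ≤ m)
    (hp : f^[m] p = p) (y : X) : f y ∈ orb f p ↔ y ∈ orb f p := by
  constructor
  · rintro ⟨k, hk⟩
    refine ⟨k + (m - 1), ?_⟩
    apply hf
    rw [← hk]
    show f (f^[k + (m - 1)] p) = f^[k] p
    rw [← Function.iterate_succ_apply' f (k + (m - 1)) p]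
    have e : (k + (m - 1)).succ = k + m := by omega
    rw [e, Function.iterate_add_apply, hp]
  · rintro ⟨k, rfl⟩
    exact ⟨k + 1, Function.iterate_succ_apply' f k p⟩

theorem not_orb {f : X → X} (hf : Function.Injective f) {x : ℤ → X}
    (hx : ∀ i, f (x i) = x (i + 1)) {p : X} {m : ℕ} (hm : 1 ≤ m) (hp : f^[m] p = p)
    (h0 : x 0 ∉ orb f p) (i : ℤ) : x i ∉ orb f p := by
  induction i using Int.induction_on with
  | zero => exact h0
  | succ i ih =>
    rw [← hx, orb_back hf hm hp]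
    exact ih
  | pred i ih =>
    rw [← orb_back hf hm hp, hx]
    rwa [sub_add_cancel]

theorem orb_finite {f : X → X} {p : X} {m : ℕ} (hm : 1 ≤ m) (hp : f^[m] p = p) :
    (orb f p).Finite := by
  apply Set.Finite.subset ((Set.finite_lt_nat m).image (fun i => f^[i] p))
  rintro _ ⟨k, rfl⟩
  exact ⟨k % m, Nat.mod_lt _ (by omega), Function.IsPeriodicPt.iterate_mod_apply (n := m) hp k⟩

variable [TopologicalSpace X] [T2Space X]

theorem x_inj {f : X → X} {x : ℤ → X} (hx : ∀ i, f (x i) = x (i + 1)) {p : X}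
    (hno : ∀ i, x i ∉ orb f p)
    (htop : ∀ O : Set X, IsOpen O → orb f p ⊆ O → ∀ᶠ i : ℤ in atTop, x i ∈ O) :
    Function.Injective x := by
  have key : ∀ i j : ℤ, i < j → x i ≠ x j := by
    intro i j hij hxx
    have h1 := htop {x i}ᶜ isClosed_singleton.isOpen_compl (by
      intro y hy hy'
      rw [mem_singleton_iff] at hy'
      exact hno i (hy' ▸ hy))
    obtain ⟨K, hK⟩ := eventually_atTop.1 h1
    have h2 : Function.IsPeriodicPt f (j - i).toNat (x i) := by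
      show f^[(j - i).toNat] (x i) = x i
      rw [step_iter hx, hxx]
      congr 1
      omega
    have h3 : Function.IsPeriodicPt f ((j - i).toNat * (K - i).toNat) (x i) :=
      h2.mul_const _
    have h4 : x (i + ((j - i).toNat * (K - i).toNat : ℕ)) = x i := by
      rw [← step_iter hx]
      exact h3
    apply hK (i + ((j - i).toNat * (K - i).toNat : ℕ)) ?_ h4
    have h5 : 1 ≤ (j - i).toNat := by omega
    have h6 : (K - i).toNat ≤ (j - i).toNat * (K - i).toNat := Nat.le_mul_of_pos_left _ h5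
    omega
  intro i j hxx
  by_contra hne
  rcases lt_or_gt_of_ne hne with h | h
  · exact key i j h hxx
  · exact key j i h hxx.symm

theorem sep {f : X → X} {x : ℤ → X} {p : X} (hfin : (orb f p).Finite)
    (hno : ∀ i, x i ∉ orb f p) (hinj : Function.Injective x)
    (htop : ∀ O : Set X, IsOpen O → orb f p ⊆ O → ∀ᶠ i : ℤ in atTop, x i ∈ O)
    (hbot : ∀ O : Set X, IsOpen O → orb f p ⊆ O → ∀ᶠ i : ℤ in atBot, x i ∈ O) (t : ℤ) :
    ∃ O C : Set X, IsOpen O ∧ IsOpen C ∧ x t ∈ O ∧ Disjoint C O ∧ orb f p ⊆ C ∧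
      ∀ i, i ≠ t → x i ∈ C := by
  obtain ⟨A1, B1, hA1, hB1, hoA, htB, hd1⟩ :=
    SeparatedNhds.of_isCompact_isCompact hfin.isCompact (isCompact_singleton (x := x t))
      (disjoint_singleton_right.2 (hno t))
  obtain ⟨K1, hK1⟩ := eventually_atTop.1 (htop A1 hA1 hoA)
  obtain ⟨K2, hK2⟩ := eventually_atBot.1 (hbot A1 hA1 hoA)
  have hF : (x '' (Set.Icc K2 K1 \ {t})).Finite := ((Set.finite_Icc K2 K1).diff).image x
  obtain ⟨A2, B2, hA2, hB2, hFA, htB2, hd2⟩ :=
    SeparatedNhds.of_isCompact_isCompact hF.isCompact (isCompact_singleton (x := x t))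
      (disjoint_singleton_right.2 (by
        rintro ⟨i, hi, hit⟩
        exact hi.2 (hinj hit)))
  refine ⟨B1 ∩ B2, A1 ∪ A2, hB1.inter hB2, hA1.union hA2, ⟨htB rfl, htB2 rfl⟩, ?_,
    hoA.trans subset_union_left, ?_⟩
  · rw [Set.disjoint_union_left]
    exact ⟨hd1.mono_right inter_subset_left, hd2.mono_right inter_subset_right⟩
  · intro i hi
    by_cases h1 : K1 ≤ i
    · exact Or.inl (hK1 i h1)
    by_cases h2 : i ≤ K2
    · exact Or.inl (hK2 i h2)
    exact Or.inr (hFA ⟨i, ⟨⟨by omega, by omega⟩, hi⟩, rfl⟩)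

theorem germ {f f' : X → X} (hf : Continuous f) {x : ℤ → X} (hx : ∀ i, f (x i) = x (i + 1))
    (s : ℤ) (k : ℕ) (h : ∀ l : ℕ, l < k → ∀ᶠ y in 𝓝 (x (s + l)), f' y = f y) :
    ∀ᶠ y in 𝓝 (x s), f'^[k] y = f^[k] y := by
  induction k with
  | zero => exact Eventually.of_forall fun y => rfl
  | succ k ih =>
    have h1 := ih (fun l hl => h l (by omega))
    have h2 := h k (by omega)
    rw [← step_iter hx] at h2
    have h3 := ((hf.iterate k).continuousAt (x := x s)).eventually h2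
    filter_upwards [h1, h3] with y hy1 hy2
    rw [Function.iterate_succ_apply', Function.iterate_succ_apply', hy1, hy2]

end top


theorem main (hLin : S_LIN) (hLP : S_LP.{u}) (hT : S_TRK.{u}) : S_TR.{u} := by
  intro n N _ _ _ _ _ r hr U hU hHyp g hg p z hz
  obtain ⟨⟨m, hm, hp⟩, hzo, ⟨x, hx, hx0, hbot⟩, hom⟩ := hz
  have hginj : Function.Injective g := g.injective
  have hgc : Continuous g := g.continuous
  have hno : ∀ i, x i ∉ orb g p := not_orb hginj hx hm hp (by rw [hx0]; exact hzo)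
  have htop : ∀ O : Set N, IsOpen O → orb g p ⊆ O → ∀ᶠ i : ℤ in atTop, x i ∈ O := by
    intro O hO hpO
    obtain ⟨K, hK⟩ := eventually_atTop.1 (hom O hO hpO)
    refine eventually_atTop.2 ⟨K, fun i hi => ?_⟩
    have h1 := hK i.toNat (by omega)
    rw [← hx0, step_iter hx] at h1
    have e : (0 : ℤ) + (i.toNat : ℤ) = i := by omega
    rwa [e] at h1
  have hxinj := x_inj hx hno htop
  have hfin := orb_finite hm hp
  -- the chart
  obtain ⟨ψ, hψ⟩ := Pool.Agent.W699.SC.gc n N p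
  have hsrc : ψ.source ∈ 𝓝 p := ψ.open_source.mem_nhds hψ.src
  -- the phases
  obtain ⟨hT1, hT2⟩ := hT N g hgc hginj p m hm hp
  obtain ⟨a0, ha0, hta0⟩ := hT1 z hom 1
  obtain ⟨b0, hb0, htb0⟩ := hT2 x hx hbot 1
  obtain ⟨I, hI⟩ := eventually_atTop.1 (hta0.eventually hsrc)
  obtain ⟨J, hJ⟩ := eventually_atTop.1 (htb0.eventually hsrc)
  obtain ⟨a, ha⟩ : ∃ a : ℕ, a = a0 + m * I := ⟨_, rfl⟩
  obtain ⟨b, hb⟩ : ∃ b : ℕ, b = b0 + m * J := ⟨_, rfl⟩
  have ha1 : 1 ≤ a := by rw [ha]; omega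
  have hb1 : 1 ≤ b := by rw [hb]; omega
  obtain ⟨t, ht⟩ : ∃ t : ℤ → ℤ, t = fun i => if 1 ≤ i then (a : ℤ) + m * (i - 1) else
    -(b : ℤ) + m * i := ⟨_, rfl⟩
  have t1 : ∀ i, 1 ≤ i → t i = a + m * (i - 1) := fun i hi => by rw [ht]; exact if_pos hi
  have t2 : ∀ i, i ≤ 0 → t i = -b + m * i := fun i hi => by rw [ht]; exact if_neg (by omega)
  have tz : t 0 = -(b : ℤ) := by rw [t2 0 le_rfl]; ring
  have tone : t 1 = (a : ℤ) := by rw [t1 1 le_rfl]; ring
  have tstep : ∀ i, i ≠ 0 → t (i + 1) = t i + m := by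
    intro i hi
    by_cases h : 1 ≤ i
    · rw [t1 i h, t1 (i + 1) (by omega)]
      ring
    · rw [t2 i (by omega), t2 (i + 1) (by omega)]
      ring
  have hx1 : ∀ i : ℤ, 1 ≤ i → ∃ k : ℕ, i - 1 ≤ k ∧ I ≤ k ∧ x (t i) = g^[a0 + m * k] z := by
    intro i hi
    refine ⟨I + (i - 1).toNat, by omega, by omega, ?_⟩
    rw [← hx0, step_iter hx, t1 i hi, ha]
    congr 1
    have e : ((i - 1).toNat : ℤ) = i - 1 := by omega
    push_cast
    rw [e]
    ring
  have hx2 : ∀ i : ℤ, i ≤ 0 → ∃ k : ℕ, -i ≤ k ∧ J ≤ k ∧ x (t i) = x (-(b0 : ℤ) - m * k) := by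
    intro i hi
    refine ⟨J + (-i).toNat, by omega, by omega, ?_⟩
    rw [t2 i hi, hb]
    congr 1
    have e : ((-i).toNat : ℤ) = -i := by omega
    push_cast
    rw [e]
    ring
  have hts : ∀ i, x (t i) ∈ ψ.source := by
    intro i
    by_cases h : 1 ≤ i
    · obtain ⟨k, _, h2, h3⟩ := hx1 i h
      rw [h3]
      exact hI k h2
    · obtain ⟨k, _, h2, h3⟩ := hx2 i (by omega)
      rw [h3]
      exact hJ k h2
  have hxt : Tendsto (fun i => x (t i)) atTop (𝓝 p) := by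
    intro S hS
    obtain ⟨K, hK⟩ := eventually_atTop.1 (hta0.eventually hS)
    refine eventually_atTop.2 ⟨K + 1, fun i hi => ?_⟩
    obtain ⟨k, h1, _, h3⟩ := hx1 i (by omega)
    show x (t i) ∈ S
    rw [h3]
    exact hK k (by omega)
  have hxb : Tendsto (fun i => x (t i)) atBot (𝓝 p) := by
    intro S hS
    obtain ⟨K, hK⟩ := eventually_atTop.1 (htb0.eventually hS)
    refine eventually_atBot.2 ⟨-K, fun i hi => ?_⟩
    obtain ⟨k, h1, _, h3⟩ := hx2 i (by omega)
    show x (t i) ∈ S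
    rw [h3]
    exact hK k (by omega)
  obtain ⟨ζ, hζ⟩ : ∃ ζ : ℤ → V n, ζ = fun i => ψ (x (t i)) := ⟨_, rfl⟩
  have hζi : ∀ i, ζ i = ψ (x (t i)) := fun i => by rw [hζ]
  have hζs : ∀ i, ψ.symm (ζ i) = x (t i) := fun i => by rw [hζi, ψ.left_inv (hts i)]
  have hψp : Tendsto ψ (𝓝 p) (𝓝 0) := by
    have := ψ.continuousAt hψ.src
    rwa [ContinuousAt, hψ.zero] at this
  have hζt : Tendsto ζ atTop (𝓝 0) := by rw [hζ]; exact hψp.comp hxt
  have hζb : Tendsto ζ atBot (𝓝 0) := by rw [hζ]; exact hψp.comp hxb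
  have hs0 : ψ.symm 0 = p := by rw [← hψ.zero, ψ.left_inv hψ.src]
  -- general facts on a diffeomorphism with the orbit `x`
  have hstep : ∀ h : DiffM n N r, (∀ i, h (x i) = x (i + 1)) → ∀ i, i ≠ 0 →
      h^[m] (x (t i)) = x (t (i + 1)) := by
    intro h hh i hi
    rw [step_iter hh, tstep i hi]
  have hjump : ∀ h : DiffM n N r, (∀ i, h (x i) = x (i + 1)) →
      h^[a + b] (x (t 0)) = x (t 1) := by
    intro h hh
    rw [step_iter hh, tz, tone]
    congr 1
    push_cast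
    ring
  have hdG : ∀ h : DiffM n N r, (∀ i, h (x i) = x (i + 1)) → ∀ i, i ≠ 0 →
      ContDiffAt ℝ 1 (fun v => ψ (h^[m] (ψ.symm v))) (ζ i) := by
    intro h hh i hi
    rw [hζi]
    exact cda hr h m hψ.mem (hts i) (by rw [hstep h hh i hi]; exact hts _)
  have hdΨ : ∀ h : DiffM n N r, (∀ i, h (x i) = x (i + 1)) →
      ContDiffAt ℝ 1 (fun v => ψ (h^[a + b] (ψ.symm v))) (ζ 0) := by
    intro h hh
    rw [hζi]
    exact cda hr h (a + b) hψ.mem (hts 0) (by rw [hjump h hh]; exact hts _)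
  have hd0 : ∀ h : DiffM n N r, h^[m] p = p →
      ContDiffAt ℝ 1 (fun v => ψ (h^[m] (ψ.symm v))) 0 := by
    intro h hh
    have := cda hr h m hψ.mem hψ.src (by rw [hh]; exact hψ.src)
    rwa [hψ.zero] at this
  -- the separation
  obtain ⟨O, C, hO, hC, hOx, hdisj, hoC, hxC⟩ := sep hfin hno hxinj htop hbot (-(b : ℤ))
  obtain ⟨κ, hκ, ρ, hρ, hLPT⟩ := hLP n N r hr g U hU hg ψ hψ.mem (x (-(b : ℤ)))
    (by rw [← tz]; exact hts 0) O hO hOx
  -- the linear perturbation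
  obtain ⟨B, hB⟩ : ∃ B : ℤ → V n →L[ℝ] V n, B = fun i => if i = 0 then
    fderiv ℝ (fun v => ψ (g^[a + b] (ψ.symm v))) (ζ 0) else
      fderiv ℝ (fun v => ψ (g^[m] (ψ.symm v))) (ζ i) := ⟨_, rfl⟩
  have hB0 : B 0 = fderiv ℝ (fun v => ψ (g^[a + b] (ψ.symm v))) (ζ 0) := by
    rw [hB]; exact if_pos rfl
  have hBi : ∀ i, i ≠ 0 → B i = fderiv ℝ (fun v => ψ (g^[m] (ψ.symm v))) (ζ i) := by
    intro i hi
    rw [hB]; exact if_neg hi
  have hcont : Tendsto (fderiv ℝ (fun v => ψ (g^[m] (ψ.symm v)))) (𝓝 0)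
      (𝓝 (fderiv ℝ (fun v => ψ (g^[m] (ψ.symm v))) 0)) :=
    ((hd0 g hp).fderiv_right (m := 0) (by norm_num)).continuousAt
  have hBt : Tendsto B atTop (𝓝 (fderiv ℝ (fun v => ψ (g^[m] (ψ.symm v))) 0)) := by
    refine (hcont.comp hζt).congr' ?_
    filter_upwards [eventually_ge_atTop 1] with i hi
    rw [hBi i (by omega)]
    rfl
  have hBb : Tendsto B atBot (𝓝 (fderiv ℝ (fun v => ψ (g^[m] (ψ.symm v))) 0)) := by
    refine (hcont.comp hζb).congr' ?_
    filter_upwards [eventually_le_atBot (-1)] with i hi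
    rw [hBi i (by omega)]
    rfl
  have hBinj : ∀ i, Function.Injective (B i) := by
    intro i
    by_cases h : i = 0
    · subst h
      rw [hB0, hζi]
      exact inj hr g (a + b) hψ.mem (hts 0) (by rw [hjump g hx]; exact hts _)
    · rw [hBi i h, hζi]
      exact inj hr g m hψ.mem (hts i) (by rw [hstep g hx i h]; exact hts _)
  have hAinj : Function.Injective (fderiv ℝ (fun v => ψ (g^[m] (ψ.symm v))) 0) := by
    have := inj hr g m hψ.mem hψ.src (by rw [hp]; exact hψ.src)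
    rwa [hψ.zero] at this
  have hAn : NoBdd (fun _ => fderiv ℝ (fun v => ψ (g^[m] (ψ.symm v))) 0) := by
    have := hHyp g hg p ⟨m, hm, hp⟩ m hm hp ψ hψ.mem hψ.src
    rwa [hψ.zero] at this
  obtain ⟨T, hTκ, hNB⟩ := hLin n B _ hBt hBb hBinj hAinj hAn κ hκ
  obtain ⟨Φ, g', hg', hgΦ, hΦO, hΦl⟩ := hLPT T hTκ
  have hsb : x (-(b : ℤ)) ∈ ψ.source := by rw [← tz]; exact hts 0
  have hΦz : Φ (x (-(b : ℤ))) = x (-(b : ℤ)) := by
    obtain ⟨h1, h2⟩ := hΦl (x (-(b : ℤ))) hsb (by rw [sub_self, norm_zero]; exact hρ)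
    apply ψ.injOn h1 hsb
    rw [h2, sub_self, map_zero, add_zero]
  have hgC : ∀ y ∈ C, g' y = g y := by
    intro y hy
    rw [hgΦ, hΦO y (fun h => Set.disjoint_left.1 hdisj hy h)]
  have hx' : ∀ i, g' (x i) = x (i + 1) := by
    intro i
    by_cases h : i = -(b : ℤ)
    · rw [h, hgΦ, hΦz, hx]
    · rw [hgC _ (hxC i h), hx]
  have hgerm : ∀ i, i ≠ -(b : ℤ) → ∀ᶠ y in 𝓝 (x i), g' y = g y := by
    intro i hi
    filter_upwards [hC.mem_nhds (hxC i hi)] with y hy
    exact hgC y hy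
  have hp' : g'^[m] p = p := by
    have h1 : ∀ k, g'^[k] p = g^[k] p := by
      intro k
      induction k with
      | zero => rfl
      | succ k ih =>
        rw [Function.iterate_succ_apply', Function.iterate_succ_apply', ih]
        exact hgC _ (hoC ⟨k, rfl⟩)
    rw [h1, hp]
  -- the derivatives
  have hsymc : ∀ i, ContinuousAt ψ.symm (ζ i) := by
    intro i
    rw [hζi]
    exact ψ.continuousAt_symm (ψ.map_source (hts i))
  have hfi : ∀ i, i ≠ 0 → fderiv ℝ (fun v => ψ (g'^[m] (ψ.symm v))) (ζ i) = B i := by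
    intro i hi
    rw [hBi i hi]
    apply Filter.EventuallyEq.fderiv_eq
    have h1 : ∀ᶠ y in 𝓝 (x (t i)), g'^[m] y = g^[m] y := by
      apply germ hgc hx
      intro l hl
      apply hgerm
      by_cases h : 1 ≤ i
      · rw [t1 i h]
        have : 0 ≤ (m : ℤ) * (i - 1) := mul_nonneg (by omega) (by omega)
        omega
      · rw [t2 i (by omega)]
        have : (m : ℤ) * i ≤ (m : ℤ) * (-1) := by
          apply mul_le_mul_of_nonneg_left <;> omega
        omega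
    have h2 : ∀ᶠ v in 𝓝 (ζ i), g'^[m] (ψ.symm v) = g^[m] (ψ.symm v) := by
      apply (hsymc i).eventually (p := fun y => g'^[m] y = g^[m] y)
      rw [hζs]
      exact h1
    filter_upwards [h2] with v hv
    rw [hv]
  have hf0 : fderiv ℝ (fun v => ψ (g'^[a + b] (ψ.symm v))) (ζ 0) =
      (B 0) ∘L (ContinuousLinearMap.id ℝ (V n) + T) := by
    have h1 : ∀ᶠ y in 𝓝 (x (-(b : ℤ) + 1)), g'^[a + b - 1] y = g^[a + b - 1] y := by
      apply germ hgc hx
      intro l hl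
      apply hgerm
      omega
    have h2 : ∀ᶠ y in 𝓝 (x (-(b : ℤ))), g'^[a + b - 1] (g' y) = g^[a + b - 1] (g' y) := by
      have h3 : ContinuousAt g' (x (-(b : ℤ))) := g'.continuous.continuousAt
      apply h3.eventually (p := fun y => g'^[a + b - 1] y = g^[a + b - 1] y)
      rw [hx']
      exact h1
    have h4 : ∀ᶠ v in 𝓝 (ζ 0), g'^[a + b - 1] (g' (ψ.symm v)) = g^[a + b - 1] (g' (ψ.symm v)) := by
      apply (hsymc 0).eventually (p := fun y => g'^[a + b - 1] (g' y) = g^[a + b - 1] (g' y))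
      rw [hζs, tz]
      exact h2
    have hab : a + b = (a + b - 1).succ := by omega
    have h5 : (fun v => ψ (g'^[a + b] (ψ.symm v))) =ᶠ[𝓝 (ζ 0)]
        (fun v => ψ (g^[a + b] (ψ.symm v))) ∘ (fun v => v + T (v - ζ 0)) := by
      have h6 : ∀ᶠ v in 𝓝 (ζ 0), v ∈ ψ.target := by
        apply ψ.open_target.mem_nhds
        rw [hζi]
        exact ψ.map_source (hts 0)
      have h7 : ∀ᶠ v in 𝓝 (ζ 0), ‖v - ζ 0‖ < ρ := by
        have : Continuous fun v : V n => ‖v - ζ 0‖ := by fun_prop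
        exact this.continuousAt.eventually_lt continuousAt_const (by simpa using hρ)
      filter_upwards [h4, h6, h7] with v hv4 hv6 hv7
      have h8 := hΦl (ψ.symm v) (ψ.map_target hv6) (by
        rw [ψ.right_inv hv6]
        have e := hζi 0
        rw [tz] at e
        rw [← e]
        exact hv7)
      have e := hζi 0
      rw [tz] at e
      rw [ψ.right_inv hv6, ← e] at h8
      show ψ (g'^[a + b] (ψ.symm v)) = ψ (g^[a + b] (ψ.symm (v + T (v - ζ 0))))
      rw [← h8.2, ψ.left_inv h8.1, hab, Function.iterate_succ_apply, Function.iterate_succ_apply,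
        ← hgΦ]
      exact congrArg ψ hv4
    rw [h5.fderiv_eq, hB0]
    have h9 : HasFDerivAt (fun v => v + T (v - ζ 0)) (ContinuousLinearMap.id ℝ (V n) + T)
        (ζ 0) := by
      have h10 : HasFDerivAt (fun v : V n => v - ζ 0) (ContinuousLinearMap.id ℝ (V n)) (ζ 0) :=
        (hasFDerivAt_id _).sub_const _
      have h11 := T.hasFDerivAt.comp (ζ 0) h10
      rw [ContinuousLinearMap.comp_id] at h11
      exact (hasFDerivAt_id _).add h11
    have h12 : (fun v => v + T (v - ζ 0)) (ζ 0) = ζ 0 := by simp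
    have h13 : HasFDerivAt (fun v => ψ (g^[a + b] (ψ.symm v)))
        (fderiv ℝ (fun v => ψ (g^[a + b] (ψ.symm v))) (ζ 0)) ((fun v => v + T (v - ζ 0)) (ζ 0)) := by
      rw [h12]
      exact ((hdΨ g hx).differentiableAt (by norm_num)).hasFDerivAt
    exact (h13.comp (ζ 0) h9).fderiv
  refine ⟨g', hg', ψ, m, a + b, ζ, ?_⟩
  refine ⟨hm, by omega, ?_, ?_, ?_, ?_, ?_, ?_, ?_⟩
  · rw [← hψ.zero]
    exact ψ.map_source hψ.src
  · intro i
    rw [hζi]
    exact ψ.map_source (hts i)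
  · intro h
    have h1 := hζs 0
    rw [h, hs0] at h1
    exact hno (t 0) (h1 ▸ ⟨0, rfl⟩)
  · rw [hs0, hp']
  · intro i hi
    rw [hζs, hζs, hstep g' hx' i hi]
  · rw [hζs, hζs, hjump g' hx']
  · refine ⟨?_, hd0 g' hp', hζt, hζb, ?_, hdG g' hx', ?_, hdΨ g' hx', ?_, ?_⟩
    · show ψ (g'^[m] (ψ.symm 0)) = 0
      rw [hs0, hp', hψ.zero]
    · intro i hi
      show ψ (g'^[m] (ψ.symm (ζ i))) = ζ (i + 1)
      rw [hζs, hstep g' hx' i hi, hζi]
    · show ψ (g'^[a + b] (ψ.symm (ζ 0))) = ζ 1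
      rw [hζs, hjump g' hx', hζi]
    · have := hHyp g' hg' p ⟨m, hm, hp'⟩ m hm hp' ψ hψ.mem hψ.src
      rwa [hψ.zero] at this
    · have e : (fun i : ℤ => if i = 0 then
          fderiv ℝ (fun v => ψ (g'^[a + b] (ψ.symm v))) (ζ 0) else
          fderiv ℝ (fun v => ψ (g'^[m] (ψ.symm v))) (ζ i)) =
          fun i => if i = 0 then (B 0) ∘L (ContinuousLinearMap.id ℝ (V n) + T) else B i := by
        funext i
        by_cases h : i = 0
        · rw [if_pos h, if_pos h, hf0]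
        · rw [if_neg h, if_neg h, hfi i h]
      rw [e]
      exact hNB

end Pool.Agent.Y863.CO
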